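import Pool.Agent.Work.MP_b5407d_lbm.Interface

set_option autoImplicit false

open MeasureTheory Set Filter Topology

namespace Pool.LBM

namespace GN

theorem dt_add (a x y : R2) : dt a (x + y) = dt a x + dt a y := by
  simp only [dt, Prod.fst_add, Prod.snd_add]; ring

theorem dt_sub (a x y : R2) : dt a (x - y) = dt a x - dt a y := by
  simp only [dt, Prod.fst_sub, Prod.snd_sub]; ring

theorem dt_smul (a x : R2) (c : ℝ) : dt a (c • x) = c * dt a x := by
  simp only [dt, Prod.smul_fst, Prod.smul_snd, smul_eq_mul]; ring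

theorem dt_rt (a : R2) : dt a (rt a) = 0 := by
  simp only [dt, rt]; ring

variable {n : ℕ} {θ P : ℕ → R2} {ℓ : ℕ → ℝ}

theorem per_eq {α : Type} {f : ℕ → α} {n : ℕ} (h : ∀ k, f (k + n) = f k) {a b : ℕ} (hab : a % n = b % n) :
    f a = f b := by
  have hp : Function.Periodic f n := h
  rw [← hp.map_mod_nat a, ← hp.map_mod_nat b, hab]

/-- strict inequality away from the edge -/
theorem strict (h : Gon n θ P ℓ) (k j : ℕ) (h1 : j % n ≠ k % n) (h2 : j % n ≠ (k + 1) % n) :
    dt (θ k) (P j) < dt (θ k) (P k) := by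
  have hn := h.three
  have hn0 : 0 < n := by omega
  obtain ⟨d, hd, hdn⟩ : ∃ d, d < n ∧ (k + d) % n = j % n := by
    refine ⟨(j + n * k - k) % n, Nat.mod_lt _ hn0, ?_⟩
    have hk : k ≤ n * k := Nat.le_mul_of_pos_left k hn0
    rw [Nat.add_mod, Nat.mod_mod, ← Nat.add_mod]
    have : k + (j + n * k - k) = j + n * k := by omega
    rw [this, Nat.add_mul_mod_self_left]
  have hd0 : d ≠ 0 := by
    rintro rfl
    exact h1 (by simpa using hdn.symm)
  have hd1 : d ≠ 1 := by
    rintro rfl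
    exact h2 hdn.symm
  have hc := h.conv k (k + 1) (k + d) (by omega) (by omega) (by omega)
  rw [per_eq h.perP hdn, h.edge k] at hc
  have h3 : cr (P k + ℓ k • rt (θ k) - P k) (P j - P k) = -(ℓ k * (dt (θ k) (P j) - dt (θ k) (P k))) := by
    simp only [cr, dt, rt, Prod.fst_sub, Prod.snd_sub, Prod.fst_add, Prod.snd_add, Prod.smul_fst,
      Prod.smul_snd, smul_eq_mul]
    ring
  rw [h3] at hc
  have hl := h.pos k
  have h4 : ℓ k * (dt (θ k) (P j) - dt (θ k) (P k)) < 0 := by linarith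
  have h5 := (mul_neg_iff.1 h4)
  rcases h5 with h5 | h5
  · linarith [h5.2]
  · linarith [h5.1]

theorem weak (h : Gon n θ P ℓ) (k j : ℕ) : dt (θ k) (P j) ≤ dt (θ k) (P k) := by
  by_cases h1 : j % n = k % n
  · rw [per_eq h.perP h1]
  · by_cases h2 : j % n = (k + 1) % n
    · rw [per_eq h.perP h2, h.edge k, dt_add, dt_smul, dt_rt, mul_zero, add_zero]
    · exact (strict h k j h1 h2).le

/-- the sum of the edge vectors is zero -/
theorem sum_edge (h : Gon n θ P ℓ) : ∑ k ∈ Finset.range n, ℓ k • θ k = 0 := by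
  have h1 : ∀ m, ∑ k ∈ Finset.range m, ℓ k • rt (θ k) = P m - P 0 := by
    intro m
    induction m with
    | zero => simp
    | succ m ih => rw [Finset.sum_range_succ, ih, h.edge m]; abel
  have h2 := h1 n
  have h3 : P n = P 0 := by
    have := h.perP 0
    rwa [zero_add] at this
  rw [h3, sub_self] at h2
  have h4 : (∑ k ∈ Finset.range n, ℓ k • rt (θ k)) = rt (∑ k ∈ Finset.range n, ℓ k • θ k) := by
    simp only [rt]
    ext
    · simp [Prod.fst_sum, Prod.snd_sum]
    · simp [Prod.fst_sum, Prod.snd_sum]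
  rw [h4] at h2
  have h5 := congrArg Prod.fst h2
  have h6 := congrArg Prod.snd h2
  simp only [rt, Prod.fst_zero, Prod.snd_zero, neg_eq_zero] at h5 h6
  exact Prod.ext h6 h5

theorem cr01 (h : Gon n θ P ℓ) : 0 < cr (θ 0) (θ 1) := by
  have hn := h.three
  have hc := h.conv 0 1 2 (by omega) (by omega) (by omega)
  have e1 : P 1 = P 0 + ℓ 0 • rt (θ 0) := h.edge 0
  have e2 : P 2 = P 1 + ℓ 1 • rt (θ 1) := h.edge 1
  rw [e2, e1] at hc
  have h3 : cr (P 0 + ℓ 0 • rt (θ 0) - P 0) (P 0 + ℓ 0 • rt (θ 0) + ℓ 1 • rt (θ 1) - P 0) =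
      ℓ 0 * ℓ 1 * cr (θ 0) (θ 1) := by
    simp only [cr, rt, Prod.fst_sub, Prod.snd_sub, Prod.fst_add, Prod.snd_add, Prod.smul_fst,
      Prod.smul_snd, smul_eq_mul]
    ring
  rw [h3] at hc
  exact (mul_pos_iff_of_pos_left (mul_pos (h.pos 0) (h.pos 1))).1 hc

theorem bounded (h : Gon n θ P ℓ) (g : Fin n → ℝ) : Bornology.IsBounded (HP (gth n θ) g) := by
  have hn := h.three
  -- two sided bounds
  have key : ∀ k : Fin n, ∃ C : ℝ, ∀ x ∈ HP (gth n θ) g, |dt (θ k) x| ≤ C := by
    intro k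
    set S : ℝ := ∑ j : Fin n, ℓ j * |g j| with hS
    refine ⟨|g k| + S / ℓ k, fun x hx => ?_⟩
    have hS0 : 0 ≤ S := Finset.sum_nonneg fun j _ => mul_nonneg (h.pos j).le (abs_nonneg _)
    have hlk := h.pos k
    have hx' : ∀ j : Fin n, dt (θ j) x ≤ g j := hx
    rw [abs_le]
    constructor
    · have h0 : ∑ j : Fin n, ℓ j * dt (θ j) x = 0 := by
        have h1 := sum_edge h
        have h2 : ∑ j ∈ Finset.range n, ℓ j * dt (θ j) x = dt (∑ j ∈ Finset.range n, ℓ j • θ j) x := by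
          simp only [dt, Prod.fst_sum, Prod.snd_sum, Finset.sum_mul, Prod.smul_fst, Prod.smul_snd, smul_eq_mul]
          rw [← Finset.sum_add_distrib]
          exact Finset.sum_congr rfl fun j _ => by ring
        rw [h1] at h2
        rw [Fin.sum_univ_eq_sum_range (fun j => ℓ j * dt (θ j) x) n, h2]
        simp [dt]
      rw [← Finset.add_sum_erase _ _ (Finset.mem_univ k)] at h0
      have h3 : ∑ j ∈ Finset.univ.erase k, ℓ j * dt (θ j) x ≤ S := by
        calc ∑ j ∈ Finset.univ.erase k, ℓ j * dt (θ j) x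
            ≤ ∑ j ∈ Finset.univ.erase k, ℓ j * |g j| :=
              Finset.sum_le_sum fun j _ => mul_le_mul_of_nonneg_left ((hx' j).trans (le_abs_self _)) (h.pos j).le
          _ ≤ S := Finset.sum_le_sum_of_subset_of_nonneg (Finset.erase_subset _ _)
              fun j _ _ => mul_nonneg (h.pos j).le (abs_nonneg _)
      have h4 : -S ≤ ℓ k * dt (θ k) x := by linarith
      have h5 : -(S / ℓ k) ≤ dt (θ k) x := by
        rw [← neg_div, div_le_iff₀ hlk]
        linarith
      linarith [abs_nonneg (g k)]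
    · have := (hx' k).trans (le_abs_self _)
      have h6 : 0 ≤ S / ℓ k := div_nonneg hS0 hlk.le
      linarith
  obtain ⟨C0, hC0⟩ := key ⟨0, by omega⟩
  obtain ⟨C1, hC1⟩ := key ⟨1, by omega⟩
  have hc := cr01 h
  set D := cr (θ 0) (θ 1) with hD
  have habs : ∀ k, |(θ k).1| ≤ 1 ∧ |(θ k).2| ≤ 1 := by
    intro k
    have hu := h.unit k
    simp only [dt] at hu
    constructor
    · rw [abs_le]; constructor <;> nlinarith [sq_nonneg (θ k).1, sq_nonneg (θ k).2]
    · rw [abs_le]; constructor <;> nlinarith [sq_nonneg (θ k).1, sq_nonneg (θ k).2]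
  refine (Metric.isBounded_closedBall (x := (0 : R2)) (r := (C0 + C1) / D)).subset fun x hx => ?_
  have h0 : |dt (θ 0) x| ≤ C0 := hC0 x hx
  have h1 : |dt (θ 1) x| ≤ C1 := hC1 x hx
  have hC0' : 0 ≤ C0 := (abs_nonneg _).trans h0
  have hC1' : 0 ≤ C1 := (abs_nonneg _).trans h1
  rw [mem_closedBall_zero_iff, Prod.norm_def, max_le_iff, Real.norm_eq_abs, Real.norm_eq_abs]
  have hb : ∀ s t : ℝ, |s| ≤ 1 → |t| ≤ 1 → |dt (θ 0) x * s - dt (θ 1) x * t| ≤ C0 + C1 := by
    intro s t hs ht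
    calc |dt (θ 0) x * s - dt (θ 1) x * t| ≤ |dt (θ 0) x * s| + |dt (θ 1) x * t| := abs_sub _ _
      _ = |dt (θ 0) x| * |s| + |dt (θ 1) x| * |t| := by rw [abs_mul, abs_mul]
      _ ≤ C0 * 1 + C1 * 1 := by
          gcongr
      _ = C0 + C1 := by ring
  constructor
  · rw [le_div_iff₀ hc]
    have e : x.1 * D = dt (θ 0) x * (θ 1).2 - dt (θ 1) x * (θ 0).2 := by
      rw [hD]; simp only [cr, dt]; ring
    calc |x.1| * D = |x.1 * D| := by rw [abs_mul, abs_of_pos hc]
      _ ≤ C0 + C1 := by rw [e]; exact hb _ _ (habs 1).2 (habs 0).2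
  · rw [le_div_iff₀ hc]
    have e : x.2 * D = dt (θ 0) x * (-(θ 1).1) - dt (θ 1) x * (-(θ 0).1) := by
      rw [hD]; simp only [cr, dt]; ring
    calc |x.2| * D = |x.2 * D| := by rw [abs_mul, abs_of_pos hc]
      _ ≤ C0 + C1 := by
          rw [e]
          exact hb _ _ (by rw [abs_neg]; exact (habs 1).1) (by rw [abs_neg]; exact (habs 0).1)

end GN

open GN in
theorem blk_GN : Stmt_GN := by
  intro n θ P ℓ h
  have hn := h.three
  refine ⟨⟨fun i => h.unit i, ?_, bounded h⟩, ?_, strict h⟩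
  · intro i k hik
    have hik' : θ i = θ k := hik
    have h1 := weak h i k
    have h2 := weak h k i
    rw [← hik'] at h2
    by_contra hne
    have hi := i.isLt
    have hk := k.isLt
    have hne' : (i : ℕ) ≠ k := fun h' => hne (Fin.ext h')
    have hi' : (i : ℕ) % n = i := Nat.mod_eq_of_lt hi
    have hk' : (k : ℕ) % n = k := Nat.mod_eq_of_lt hk
    have h3 : (k : ℕ) % n = ((i : ℕ) + 1) % n := by
      by_contra h4
      have := strict h i k (by omega) h4
      linarith
    have h4 : (i : ℕ) % n = ((k : ℕ) + 1) % n := by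
      by_contra h5
      have := strict h k i (by omega) h5
      rw [← hik'] at this
      linarith
    rw [hi'] at h4
    rw [hk'] at h3
    rcases Nat.lt_or_ge ((i : ℕ) + 1) n with h5 | h5
    · rw [Nat.mod_eq_of_lt h5] at h3
      rcases Nat.lt_or_ge ((k : ℕ) + 1) n with h6 | h6
      · rw [Nat.mod_eq_of_lt h6] at h4; omega
      · have h7 : (k : ℕ) + 1 = n := by omega
        rw [h7, Nat.mod_self] at h4
        omega
    · have h7 : (i : ℕ) + 1 = n := by omega
      rw [h7, Nat.mod_self] at h3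
      rw [h3, Nat.mod_eq_of_lt (by omega)] at h4
      omega
  · refine ⟨(1 / 3 : ℝ) • (P 0 + P 1 + P 2), fun j => ?_⟩
    change dt (θ j) _ < dt (θ j) (P j)
    rw [dt_smul, dt_add, dt_add]
    have w0 := weak h j 0
    have w1 := weak h j 1
    have w2 := weak h j 2
    have hj := j.isLt
    have hj' : (j : ℕ) % n = j := Nat.mod_eq_of_lt hj
    have e0 : 0 % n = 0 := Nat.mod_eq_of_lt (by omega)
    have e1 : 1 % n = 1 := Nat.mod_eq_of_lt (by omega)
    have e2 : 2 % n = 2 := Nat.mod_eq_of_lt (by omega)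
    have hex : (0 % n ≠ (j : ℕ) % n ∧ 0 % n ≠ ((j : ℕ) + 1) % n) ∨
        (1 % n ≠ (j : ℕ) % n ∧ 1 % n ≠ ((j : ℕ) + 1) % n) ∨
        (2 % n ≠ (j : ℕ) % n ∧ 2 % n ≠ ((j : ℕ) + 1) % n) := by
      rw [e0, e1, e2, hj']
      generalize ((j : ℕ) + 1) % n = r
      generalize (j : ℕ) = q
      omega
    rcases hex with hs | hs | hs
    · have := strict h j 0 hs.1 hs.2; linarith
    · have := strict h j 1 hs.1 hs.2; linarith
    · have := strict h j 2 hs.1 hs.2; linarith

end Pool.LBM
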