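import Pool.Agent.Work.MP_b5407d_lbm.Interface

set_option autoImplicit false

open MeasureTheory Set Filter Topology

namespace Pool.LBM

namespace LB

theorem cont_dt (a : R2) : Continuous fun x : R2 => dt a x := by
  unfold dt; fun_prop

theorem cont_ex (l : R2) : Continuous fun x : R2 => ex l x := by
  unfold ex; exact Real.continuous_exp.comp (cont_dt l)

theorem hp_closed {ι : Type} (θ : ι → R2) (h : ι → ℝ) : IsClosed (HP θ h) := by
  have : HP θ h = ⋂ i, {x | dt (θ i) x ≤ h i} := by ext; simp [HP]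
  rw [this]
  exact isClosed_iInter fun i => isClosed_le (cont_dt _) continuous_const

theorem hp_compact {ι : Type} {θ : ι → R2} (hθ : Nor θ) (h : ι → ℝ) : IsCompact (HP θ h) :=
  Metric.isCompact_of_isClosed_isBounded (hp_closed θ h) (hθ.bdd h)

theorem hp_int {ι : Type} {θ : ι → R2} (hθ : Nor θ) (h : ι → ℝ) (l : R2) :
    IntegrableOn (fun x => ex l x) (HP θ h) :=
  (cont_ex l).continuousOn.integrableOn_compact (hp_compact hθ h)

theorem hp_vol {ι : Type} [Finite ι] {θ : ι → R2} {h : ι → ℝ} (hh : ∀ i, 0 < h i) :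
    0 < volume (HP θ h) := by
  have hU : IsOpen {x : R2 | ∀ i, dt (θ i) x < h i} := by
    have : {x : R2 | ∀ i, dt (θ i) x < h i} = ⋂ i, {x | dt (θ i) x < h i} := by ext; simp
    rw [this]
    exact isOpen_iInter_of_finite fun i => isOpen_lt (cont_dt _) continuous_const
  have h0 : (0 : R2) ∈ {x : R2 | ∀ i, dt (θ i) x < h i} := by
    intro i
    simpa [dt] using hh i
  refine lt_of_lt_of_le (hU.measure_pos volume ⟨0, h0⟩) (measure_mono fun x hx i => (hx i).le)

theorem ex_pos (l x : R2) : 0 < ex l x := Real.exp_pos _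

theorem ii_pos {ι : Type} [Finite ι] {θ : ι → R2} (hθ : Nor θ) {h : ι → ℝ} (hh : ∀ i, 0 < h i) (l : R2) :
    0 < II θ (ex l) h := by
  unfold II
  rw [integral_pos_iff_support_of_nonneg (fun x => (ex_pos l x).le) (hp_int hθ h l)]
  have : Function.support (fun x => ex l x) = univ := by
    ext x; simp [(ex_pos l x).ne']
  rw [this, Measure.restrict_apply_univ]
  exact hp_vol hh

/-- the volume of a centred set is at most the tilted mass of a bigger polygon -/
theorem vol_le {ι : Type} {θ : ι → R2} (hθ : Nor θ) (h : ι → ℝ) (l : R2) {K : Set R2}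
    (hK : IsCompact K) (h1 : (∫ x in K, x.1) = 0) (h2 : (∫ x in K, x.2) = 0) (hs : K ⊆ HP θ h) :
    (volume K).toReal ≤ II θ (ex l) h := by
  have c1 : Continuous fun x : R2 => x.1 := continuous_fst
  have c2 : Continuous fun x : R2 => x.2 := continuous_snd
  have i1 : IntegrableOn (fun x : R2 => x.1) K := c1.continuousOn.integrableOn_compact hK
  have i2 : IntegrableOn (fun x : R2 => x.2) K := c2.continuousOn.integrableOn_compact hK
  have i0 : IntegrableOn (fun _ : R2 => (1 : ℝ)) K := continuous_const.continuousOn.integrableOn_compact hK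
  have i3 : IntegrableOn (fun x : R2 => l.1 * x.1) K := i1.const_mul _
  have i4 : IntegrableOn (fun x : R2 => l.2 * x.2) K := i2.const_mul _
  have e1 : ∫ x in K, (1 + (l.1 * x.1 + l.2 * x.2)) = (volume K).toReal := by
    have i5 : IntegrableOn (fun x : R2 => l.1 * x.1 + l.2 * x.2) K := i3.add i4
    rw [integral_add i0 i5, integral_add i3 i4, integral_const_mul, integral_const_mul, h1, h2]
    simp [Measure.real]
  rw [← e1]
  calc ∫ x in K, (1 + (l.1 * x.1 + l.2 * x.2)) ≤ ∫ x in K, ex l x := by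
        refine integral_mono (i0.add (i3.add i4)) ((cont_ex l).continuousOn.integrableOn_compact hK) fun x => ?_
        have := Real.add_one_le_exp (dt l x)
        simp only [dt] at this
        change 1 + (l.1 * x.1 + l.2 * x.2) ≤ Real.exp (dt l x)
        unfold dt
        linarith
    _ ≤ II θ (ex l) h := by
        refine setIntegral_mono_set (hp_int hθ h l) ?_ (HasSubset.Subset.eventuallyLE hs)
        exact Eventually.of_forall fun x => (ex_pos l x).le

theorem mm_ge {ι : Type} {θ : ι → R2} (hθ : Nor θ) (h : ι → ℝ) {K : Set R2}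
    (hK : IsCompact K) (hi : (interior K).Nonempty) (h1 : (∫ x in K, x.1) = 0) (h2 : (∫ x in K, x.2) = 0)
    (hs : K ⊆ HP θ h) : Real.log (volume K).toReal ≤ MM θ h := by
  unfold MM
  refine le_ciInf fun l => ?_
  refine Real.log_le_log ?_ (vol_le hθ h l hK h1 h2 hs)
  exact ENNReal.toReal_pos (Measure.measure_pos_of_nonempty_interior _ hi).ne' hK.measure_lt_top.ne

theorem mm_le {ι : Type} [Fintype ι] (mt : Stmt_MT) {θ : ι → R2} (hθ : Nor θ) {h : ι → ℝ}
    (hh : ∀ i, 0 < h i) : MM θ h ≤ Real.log (volume (HP θ h)).toReal := by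
  obtain ⟨l, hl, -, -⟩ := mt ι θ h hθ hh
  have e : II θ (ex 0) h = (volume (HP θ h)).toReal := by
    unfold II
    have : ∀ x, ex (0 : R2) x = 1 := by intro x; simp [ex, dt]
    simp [this, Measure.real]
  rw [← e]
  unfold MM
  refine ciInf_le ⟨Real.log (II θ (ex l) h), ?_⟩ 0
  rintro _ ⟨l', rfl⟩
  exact Real.log_le_log (ii_pos hθ hh l) (hl l')

/-- the direction `φ` -/
noncomputable def dir (φ : ℝ) : R2 := (Real.cos φ, Real.sin φ)

theorem cont_sp {K : Set R2} (hK : IsCompact K) : Continuous (sp K) := by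
  unfold sp
  refine hK.continuous_sSup ?_
  unfold dt
  fun_prop

theorem le_sp {K : Set R2} (hK : IsCompact K) (φ : ℝ) {x : R2} (hx : x ∈ K) : dt (dir φ) x ≤ sp K φ :=
  le_csSup (hK.image (cont_dt _)).bddAbove ⟨x, hx, rfl⟩

theorem sp_pos {K : Set R2} (hK : IsCompact K) (hi : (interior K).Nonempty)
    (h1 : (∫ x in K, x.1) = 0) (h2 : (∫ x in K, x.2) = 0) (φ : ℝ) : 0 < sp K φ := by
  by_contra hcon
  have hle : ∀ x ∈ K, dt (dir φ) x ≤ 0 := fun x hx => (le_sp hK φ hx).trans (not_lt.1 hcon)
  have c1 : Continuous fun x : R2 => x.1 := continuous_fst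
  have c2 : Continuous fun x : R2 => x.2 := continuous_snd
  have i1 : IntegrableOn (fun x : R2 => x.1) K := c1.continuousOn.integrableOn_compact hK
  have i2 : IntegrableOn (fun x : R2 => x.2) K := c2.continuousOn.integrableOn_compact hK
  have hint : ∫ x in K, -dt (dir φ) x = 0 := by
    rw [integral_neg]
    unfold dt
    rw [integral_add (i1.const_mul _) (i2.const_mul _), integral_const_mul, integral_const_mul, h1, h2]
    simp
  have hi' : IntegrableOn (fun x => -dt (dir φ) x) K :=
    (cont_dt _).neg.continuousOn.integrableOn_compact hK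
  have hpos : 0 < ∫ x in K, -dt (dir φ) x := by
    rw [setIntegral_pos_iff_support_of_nonneg_ae]
    · have hsub : interior K ∩ {x | dt (dir φ) x < 0} ⊆ Function.support (fun x => -dt (dir φ) x) ∩ K := by
        rintro x ⟨hx, hx'⟩
        refine ⟨?_, interior_subset hx⟩
        exact (neg_pos.2 hx').ne'
      refine lt_of_lt_of_le ?_ (measure_mono hsub)
      refine IsOpen.measure_pos volume (isOpen_interior.inter (isOpen_lt (cont_dt _) continuous_const)) ?_
      obtain ⟨x0, hx0⟩ := hi
      -- move a little in the direction `-dir φ`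
      have hc : Continuous fun s : ℝ => x0 - s • dir φ := by fun_prop
      have hev : ∀ᶠ s in 𝓝 (0 : ℝ), x0 - s • dir φ ∈ interior K := by
        apply hc.continuousAt.eventually_mem
        simpa using isOpen_interior.mem_nhds hx0
      obtain ⟨δ, hδ, hball⟩ := Metric.eventually_nhds_iff.1 hev
      have h3 := hball (y := δ / 2) (by rw [Real.dist_eq, sub_zero, abs_of_pos (by linarith)]; linarith)
      refine ⟨_, h3, ?_⟩
      have h4 : dt (dir φ) (x0 - (δ / 2) • dir φ) = dt (dir φ) x0 - δ / 2 := by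
        have := Real.cos_sq_add_sin_sq φ
        simp only [dt, dir, Prod.fst_sub, Prod.snd_sub, Prod.smul_fst, Prod.smul_snd, smul_eq_mul]
        linear_combination (-(δ / 2)) * this
      have h5 := hle x0 (interior_subset hx0)
      change dt (dir φ) _ < 0
      rw [h4]; linarith
    · filter_upwards [ae_restrict_mem hK.measurableSet] with x hx
      have := hle x hx
      change 0 ≤ -dt (dir φ) x
      linarith
    · exact hi'
  linarith

theorem nrm_dir (N : ℕ) (i : Fin N) : nrm N i = dir (2 * Real.pi * (i : ℕ) / N) := rfl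

end LB

open LB in
theorem blk_LB : Stmt_CON → Stmt_NR → Stmt_MT → Stmt_LB := by
  intro con nr mt pos K C _ hK hKi _ hC hCi hK1 hK2 hC1 hC2 t ht
  have ht0 := ht.1
  have ht1 := ht.2
  set F : ℝ → ℝ := fun φ => sp K φ ^ (1 - t) * sp C φ ^ t with hF
  have hKp := sp_pos hK hKi hK1 hK2
  have hCp := sp_pos hC hCi hC1 hC2
  have hFc : Continuous F := by
    refine Continuous.mul ?_ ?_
    · exact (cont_sp hK).rpow_const fun φ => Or.inl (hKp φ).ne'
    · exact (cont_sp hC).rpow_const fun φ => Or.inl (hCp φ).ne'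
  have hFp : ∀ φ, 0 < F φ := fun φ => mul_pos (Real.rpow_pos_of_pos (hKp φ) _) (Real.rpow_pos_of_pos (hCp φ) _)
  -- the polygons
  set ang : ℕ → ℕ → ℝ := fun k i => 2 * Real.pi * i / (3 ^ (k + 1) : ℕ) with hang
  set A : ℕ → Set R2 := fun k => HP (nrm (3 ^ (k + 1))) (fun i => F (ang k i)) with hA
  have h3 : ∀ k, 3 ≤ 3 ^ (k + 1) := fun k => by
    calc 3 = 3 ^ 1 := rfl
      _ ≤ 3 ^ (k + 1) := Nat.pow_le_pow_right (by norm_num) (by omega)
  have hodd : ∀ k, Odd (3 ^ (k + 1)) := fun k => (by decide : Odd 3).pow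
  have hNor : ∀ k, Nor (nrm (3 ^ (k + 1))) := fun k => (nr _ (h3 k)).1
  -- lower bound
  have vK : 0 < (volume K).toReal :=
    ENNReal.toReal_pos (Measure.measure_pos_of_nonempty_interior _ hKi).ne' hK.measure_lt_top.ne
  have vC : 0 < (volume C).toReal :=
    ENNReal.toReal_pos (Measure.measure_pos_of_nonempty_interior _ hCi).ne' hC.measure_lt_top.ne
  have hlow : ∀ k, (volume K).toReal ^ (1 - t) * (volume C).toReal ^ t ≤ (volume (A k)).toReal := by
    intro k
    have b0 := mm_ge (hNor k) (fun i => sp K (ang k i)) hK hKi hK1 hK2 (fun x hx i => le_sp hK _ hx)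
    have b1 := mm_ge (hNor k) (fun i => sp C (ang k i)) hC hCi hC1 hC2 (fun x hx i => le_sp hC _ hx)
    have b2 := con pos (3 ^ (k + 1)) (h3 k) (hodd k) (fun i => sp K (ang k i)) (fun i => sp C (ang k i))
      (fun i => hKp _) (fun i => hCp _) t ht
    have b3 := mm_le mt (hNor k) (h := fun i : Fin (3 ^ (k + 1)) => F (ang k i)) (fun i => hFp _)
    have hvA : 0 < (volume (A k)).toReal :=
      ENNReal.toReal_pos (hp_vol (fun i => hFp _)).ne' (hp_compact (hNor k) _).measure_lt_top.ne
    have b4 : (1 - t) * Real.log (volume K).toReal + t * Real.log (volume C).toReal ≤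
        Real.log (volume (A k)).toReal := by
      have c0 := mul_le_mul_of_nonneg_left b0 (sub_nonneg.2 ht1)
      have c1 := mul_le_mul_of_nonneg_left b1 ht0
      exact (add_le_add c0 c1).trans (b2.trans b3)
    rw [Real.rpow_def_of_pos vK, Real.rpow_def_of_pos vC, ← Real.exp_add]
    rw [← Real.exp_log hvA]
    refine Real.exp_le_exp.2 ?_
    linarith
  -- monotone
  have hanti : Antitone A := by
    refine antitone_nat_of_succ_le fun k => ?_
    intro x hx i
    have hi := i.isLt
    have h5 : 3 * (i : ℕ) < 3 ^ (k + 1 + 1) := by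
      have h6 : (3 : ℕ) ^ (k + 1 + 1) = 3 * 3 ^ (k + 1) := by rw [pow_succ 3 (k + 1), mul_comm]
      calc 3 * (i : ℕ) < 3 * 3 ^ (k + 1) := Nat.mul_lt_mul_of_pos_left hi (by norm_num)
        _ = _ := h6.symm
    have h6 := hx ⟨3 * i, h5⟩
    have e1 : ang (k + 1) (3 * i) = ang k i := by
      simp only [hang]
      push_cast
      rw [pow_succ (3 : ℝ) (k + 1)]
      field_simp
    have e2 : nrm (3 ^ (k + 1 + 1)) ⟨3 * i, h5⟩ = nrm (3 ^ (k + 1)) i := by
      rw [nrm_dir, nrm_dir]
      congr 1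
    change dt (nrm (3 ^ (k + 1 + 1)) ⟨3 * i, h5⟩) x ≤ F (ang (k + 1) (3 * i)) at h6
    rw [e1, e2] at h6
    exact h6
  -- the intersection
  have hsub : ⋂ k, A k ⊆ {x : R2 | ∀ φ : ℝ, dt (Real.cos φ, Real.sin φ) x ≤ F φ} := by
    intro x hx φ
    rw [mem_iInter] at hx
    -- reduce to `φ ∈ [0, 2π)`
    have hper : Function.Periodic (fun φ => F φ - dt (dir φ) x) (2 * Real.pi) := by
      intro φ
      have e : ∀ S : Set R2, sp S (φ + 2 * Real.pi) = sp S φ := by
        intro S; simp only [sp, Real.cos_add_two_pi, Real.sin_add_two_pi]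
      simp only [hF, dir, e, Real.cos_add_two_pi, Real.sin_add_two_pi]
    have h2pi : 0 < 2 * Real.pi := by positivity
    obtain ⟨ψ, hψ, hψe⟩ := hper.exists_mem_Ico₀ h2pi φ
    suffices h7 : 0 ≤ F ψ - dt (dir ψ) x by
      have h8 : 0 ≤ F φ - dt (dir φ) x := by
        have : F φ - dt (dir φ) x = F ψ - dt (dir ψ) x := hψe
        rw [this]; exact h7
      change dt (dir φ) x ≤ F φ
      linarith
    have hcont : Continuous fun φ => F φ - dt (dir φ) x := by
      refine hFc.sub ?_
      unfold dt dir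
      fun_prop
    -- approximation
    set s : ℕ → ℕ := fun k => ⌊ψ / (2 * Real.pi) * (3 ^ (k + 1) : ℕ)⌋₊ with hs
    have hslt : ∀ k, s k < 3 ^ (k + 1) := by
      intro k
      rw [hs]
      have hp : (0 : ℝ) < (3 ^ (k + 1) : ℕ) := by positivity
      rw [Nat.floor_lt (by have := hψ.1; positivity)]
      have : ψ / (2 * Real.pi) < 1 := by rw [div_lt_one h2pi]; exact hψ.2
      nlinarith
    have hlim : Tendsto (fun k => ang k (s k)) atTop (𝓝 ψ) := by
      have hbound : ∀ k, |ang k (s k) - ψ| ≤ 2 * Real.pi * (1 / 3 : ℝ) ^ (k + 1) := by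
        intro k
        have hp : (0 : ℝ) < (3 ^ (k + 1) : ℕ) := by positivity
        have hf1 : (s k : ℝ) ≤ ψ / (2 * Real.pi) * (3 ^ (k + 1) : ℕ) :=
          Nat.floor_le (by have := hψ.1; positivity)
        have hf2 : ψ / (2 * Real.pi) * (3 ^ (k + 1) : ℕ) < s k + 1 := Nat.lt_floor_add_one _
        have e1 : ang k (s k) - ψ =
            (2 * Real.pi / (3 ^ (k + 1) : ℕ)) * ((s k : ℝ) - ψ / (2 * Real.pi) * (3 ^ (k + 1) : ℕ)) := by
          simp only [hang]
          field_simp
        have e2 : 2 * Real.pi * (1 / 3 : ℝ) ^ (k + 1) = 2 * Real.pi / (3 ^ (k + 1) : ℕ) := by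
          rw [one_div, inv_pow]; push_cast; rfl
        rw [e1, e2, abs_mul, abs_of_pos (by positivity)]
        have h9 : |(s k : ℝ) - ψ / (2 * Real.pi) * (3 ^ (k + 1) : ℕ)| ≤ 1 := by
          rw [abs_le]; constructor <;> linarith
        calc 2 * Real.pi / (3 ^ (k + 1) : ℕ) * |(s k : ℝ) - ψ / (2 * Real.pi) * (3 ^ (k + 1) : ℕ)|
            ≤ 2 * Real.pi / (3 ^ (k + 1) : ℕ) * 1 := mul_le_mul_of_nonneg_left h9 (by positivity)
          _ = _ := mul_one _
      have hz : Tendsto (fun k : ℕ => 2 * Real.pi * (1 / 3 : ℝ) ^ (k + 1)) atTop (𝓝 0) := by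
        have := (tendsto_pow_atTop_nhds_zero_of_lt_one (r := (1 / 3 : ℝ)) (by norm_num) (by norm_num))
        have := ((tendsto_add_atTop_iff_nat 1).2 this).const_mul (2 * Real.pi)
        simpa using this
      rw [tendsto_iff_norm_sub_tendsto_zero]
      exact squeeze_zero (fun _ => norm_nonneg _) (fun k => by rw [Real.norm_eq_abs]; exact hbound k) hz
    have hlim2 := (hcont.tendsto ψ).comp hlim
    refine ge_of_tendsto hlim2 (Eventually.of_forall fun k => ?_)
    have h10 := hx k ⟨s k, hslt k⟩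
    change dt (dir (ang k (s k))) x ≤ F (ang k (s k)) at h10
    change 0 ≤ F (ang k (s k)) - dt (dir (ang k (s k))) x
    linarith
  -- the limit
  have hfin : ∀ k, volume (A k) ≠ ⊤ := fun k => (hp_compact (hNor k) _).measure_lt_top.ne
  have hten := tendsto_measure_iInter_atTop (μ := (volume : Measure R2)) (s := A)
    (fun k => (hp_closed _ _).measurableSet.nullMeasurableSet) hanti ⟨0, hfin 0⟩
  have hge : ENNReal.ofReal ((volume K).toReal ^ (1 - t) * (volume C).toReal ^ t) ≤ volume (⋂ k, A k) := by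
    refine ge_of_tendsto hten (Eventually.of_forall fun k => ?_)
    exact ENNReal.ofReal_le_of_le_toReal (hlow k)
  have hW : volume {x : R2 | ∀ φ : ℝ, dt (Real.cos φ, Real.sin φ) x ≤ F φ} ≠ ⊤ := by
    refine ne_top_of_le_ne_top (hfin 0) (measure_mono fun x hx i => ?_)
    exact hx (ang 0 i)
  have h11 := hge.trans (measure_mono hsub)
  have h12 := (ENNReal.ofReal_le_iff_le_toReal hW).1 h11
  exact h12

end Pool.LBM
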